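import Mathlib
import Pool.Agent.Y397.AM.Spec

set_option autoImplicit false

/-!
# Amenable coverings do not control the spectral radius of the quotient

For every `C` there is an amenable connected uniformly bounded weighted graph `(Γ₁, α₁)` which
covers a uniformly bounded weighted graph `(Γ₂, α₂)`, with all the weights equal to `1`, such that
some real number `lam` of the spectrum of `H₂` is larger than `C ‖H₁‖`. In particular the spectral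
inclusion fails, and no constant multiple of the norm of `H₁` bounds the spectral radius of `H₂`.

Here `Γ₂` is a half line with `d` loops at its origin, `Γ₁` the `d`-regular tree with a half line
attached at every vertex, `d = q² + 1`. The vector `d^(-n)` is an eigenvector of `H₂` with the
eigenvalue `d + 1/d`, and a Schur test on the darts shows that `‖H₁‖ ≤ 2 q + 1 / (2 q)`.
-/

namespace Pool.Agent.Results.MP_5b767b_an.UnboundedRatio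

open Pool.Agent.Y397.AM

variable {V₁ E₁ V₂ E₂ : Type}

/-- `(Γ₁, α₁)` is an amenable, connected, uniformly bounded weighted graph which covers the
uniformly bounded weighted graph `(Γ₂, α₂)`. -/
def AmenableCovering (Γ₁ : Gr V₁ E₁) (α₁ : V₁ → E₁ → ℂ) (Γ₂ : Gr V₂ E₂) (α₂ : V₂ → E₂ → ℂ) :
    Prop :=
  Γ₁.Amenable ∧ Γ₁.Connected ∧ UniformlyBounded Γ₁ α₁ ∧ UniformlyBounded Γ₂ α₂ ∧
    ∃ (φ : V₁ → V₂) (ψ : E₁ → E₂), IsCovering Γ₁ α₁ Γ₂ α₂ φ ψ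

/-- **The spectral inclusion fails by an unbounded factor.**
(1) For every `q ≥ 1` there are an amenable, connected, uniformly bounded weighted graph
`(Γ₁, α₁)` covering a weighted graph `(Γ₂, α₂)`, all weights equal to `1` and all degrees at most
`q² + 3`, with Laplace type operators `H₁` and `H₂`, such that `‖H₁‖ ≤ 2 q + 1 / (2 q)` while
`q² + 1 + 1 / (q² + 1)` is in the spectrum of `H₂`.
(2) For every real `C` there are such graphs (all weights equal to `1`) and a point `lam` of the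
spectrum of `H₂` with `|lam| > C ‖H₁‖` and `|lam| > ‖H₁‖`; so `lam` is not in the spectrum
of `H₁`. -/
theorem result :
    (∀ q : ℕ, 1 ≤ q → ∃ (V₁ E₁ V₂ E₂ : Type) (Γ₁ : Gr V₁ E₁) (α₁ : V₁ → E₁ → ℂ) (Γ₂ : Gr V₂ E₂)
      (α₂ : V₂ → E₂ → ℂ) (H₁ : Op V₁) (H₂ : Op V₂), AmenableCovering Γ₁ α₁ Γ₂ α₂ ∧
      IsLaplaceType Γ₁ α₁ H₁ ∧ IsLaplaceType Γ₂ α₂ H₂ ∧
      (∀ v e, α₁ v e = 1) ∧ (∀ v e, α₂ v e = 1) ∧
      (∀ v, (Γ₁.star v).encard ≤ (q ^ 2 + 3 : ℕ)) ∧ (∀ v, (Γ₂.star v).encard ≤ (q ^ 2 + 3 : ℕ)) ∧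
      ‖H₁‖ ≤ 2 * (q : ℝ) + (2 * (q : ℝ))⁻¹ ∧
      (((q ^ 2 + 1 : ℕ) : ℂ) + ((q ^ 2 + 1 : ℕ) : ℂ)⁻¹) ∈ spec H₂) ∧
    ∀ C : ℝ, ∃ (V₁ E₁ V₂ E₂ : Type) (Γ₁ : Gr V₁ E₁) (α₁ : V₁ → E₁ → ℂ) (Γ₂ : Gr V₂ E₂)
      (α₂ : V₂ → E₂ → ℂ) (H₁ : Op V₁) (H₂ : Op V₂), AmenableCovering Γ₁ α₁ Γ₂ α₂ ∧
      IsLaplaceType Γ₁ α₁ H₁ ∧ IsLaplaceType Γ₂ α₂ H₂ ∧
      (∀ v e, α₁ v e = 1) ∧ (∀ v e, α₂ v e = 1) ∧
      ∃ lam : ℂ, lam ∈ spec H₂ ∧ C * ‖H₁‖ < ‖lam‖ ∧ ‖H₁‖ < ‖lam‖ ∧ lam ∉ spec H₁ := by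
  refine ⟨fun q hq => ?_, fun C => ?_⟩
  · have hd2 : 2 ≤ q ^ 2 + 1 := by
      have : 1 ≤ q ^ 2 := Nat.one_le_pow _ _ (by omega)
      omega
    exact ⟨W (q ^ 2 + 1) × ℕ, TE (q ^ 2 + 1) ⊕ W (q ^ 2 + 1) × ℕ, ℕ, Fin (q ^ 2 + 1) ⊕ ℕ,
      G1 (q ^ 2 + 1), fun _ _ => 1, G2 (q ^ 2 + 1), fun _ _ => 1,
      (D1 (q ^ 2 + 1)).op, (D2 (q ^ 2 + 1)).op,
      ⟨amenable1, connected1, bounded_of _ (D1 (q ^ 2 + 1)) ed1 bij1,
        bounded_of _ (D2 (q ^ 2 + 1)) ed2 bij2, Prod.snd, psi, covering⟩,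
      laplace_of_sys _ (D1 (q ^ 2 + 1)) ed1 bij1 ends1,
      laplace_of_sys _ (D2 (q ^ 2 + 1)) ed2 bij2 ends2, fun _ _ => rfl, fun _ _ => rfl,
      deg_bound _ (D1 (q ^ 2 + 1)) ed1 bij1, deg_bound _ (D2 (q ^ 2 + 1)) ed2 bij2,
      norm_D1 q hq, (mem_spec_iff _ _).2 (mem_spec2 _ hd2)⟩
  obtain ⟨q, hq, h⟩ := exists_ratio (max C 1)
  set d : ℕ := q ^ 2 + 1 with hd
  have hd2 : 2 ≤ d := by
    have : 1 ≤ q ^ 2 := Nat.one_le_pow _ _ (by omega)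
    omega
  have hpos : (0 : ℝ) < (d : ℝ) + (d : ℝ)⁻¹ := by positivity
  have hn : ‖((d : ℂ) + (d : ℂ)⁻¹)‖ = (d : ℝ) + (d : ℝ)⁻¹ := by
    have e : ((d : ℂ) + (d : ℂ)⁻¹) = (((d : ℝ) + (d : ℝ)⁻¹ : ℝ) : ℂ) := by
      push_cast
      rfl
    rw [e, Complex.norm_real, Real.norm_of_nonneg hpos.le]
  have h0 : 0 ≤ ‖(D1 d).op‖ := norm_nonneg _
  have h1 : ‖(D1 d).op‖ < ‖((d : ℂ) + (d : ℂ)⁻¹)‖ := by
    rw [hn]
    refine lt_of_le_of_lt ?_ h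
    have := mul_le_mul_of_nonneg_right (le_max_right C 1) h0
    rwa [one_mul] at this
  have h2 : C * ‖(D1 d).op‖ < ‖((d : ℂ) + (d : ℂ)⁻¹)‖ := by
    rw [hn]
    exact lt_of_le_of_lt (mul_le_mul_of_nonneg_right (le_max_left C 1) h0) h
  refine ⟨W d × ℕ, TE d ⊕ W d × ℕ, ℕ, Fin d ⊕ ℕ, G1 d, fun _ _ => 1, G2 d, fun _ _ => 1,
    (D1 d).op, (D2 d).op, ⟨amenable1, connected1, bounded_of (G1 d) (D1 d) ed1 bij1,
    bounded_of (G2 d) (D2 d) ed2 bij2, Prod.snd, psi, covering⟩,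
    laplace_of_sys (G1 d) (D1 d) ed1 bij1 ends1,
    laplace_of_sys (G2 d) (D2 d) ed2 bij2 ends2, fun _ _ => rfl, fun _ _ => rfl,
    (d : ℂ) + (d : ℂ)⁻¹, (mem_spec_iff _ _).2 (mem_spec2 d hd2), h2, h1, fun h3 => ?_⟩
  have h4 := spectrum.norm_le_norm_mul_of_mem ((mem_spec_iff _ _).1 h3)
  have h5 : ‖(1 : Op (W d × ℕ))‖ ≤ 1 := ContinuousLinearMap.norm_id_le
  have h6 : ‖(D1 d).op‖ * ‖(1 : Op (W d × ℕ))‖ ≤ ‖(D1 d).op‖ * 1 :=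
    mul_le_mul_of_nonneg_left h5 h0
  linarith

end Pool.Agent.Results.MP_5b767b_an.UnboundedRatio
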